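import Pool.Agent.H927R5.VuBox

/-!
# MP_c798af_co : Vu's independence number conjecture for graphs on at most `K Δ` vertices
-/

set_option autoImplicit false

namespace Pool.Agent.Results.MP_c798af_co.LinearSize

open Pool.Agent.H927R5.Vu

theorem sum_ind {V : Type} [Fintype V] (p : V → Prop) [DecidablePred p] :
    ∑ w : V, ind (p w) = ((Finset.univ.filter p).card : ℝ) := by
  have h : ∀ w : V, ind (p w) = if p w then (1 : ℝ) else 0 := by
    intro w
    by_cases h : p w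
    · rw [ind_pos h, if_pos h]
    · rw [ind_neg h, if_neg h]
  simp only [h]
  rw [Finset.sum_boole]

/-- Vu's bound on the independence number for all graphs on at most `K Δ` vertices, without any
hypothesis on the degrees. -/
theorem result :
    ∀ ζ : ℝ, 0 < ζ → ∀ ε : ℝ, 0 < ε → ∀ K : ℝ, 0 < K → ∃ Δ₀ : ℕ, ∀ Δ : ℕ, Δ₀ ≤ Δ →
      ∀ (V : Type) [Fintype V] [DecidableEq V] (G : SimpleGraph V) [DecidableRel G.Adj],
        (Fintype.card V : ℝ) ≤ K * (Δ : ℝ) →
        (∀ u v : V, u ≠ v →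
          (((Finset.univ.filter (fun w => G.Adj u w ∧ G.Adj v w)).card : ℕ) : ℝ) ≤ ζ * (Δ : ℝ)) →
        (1 / ζ - ε) * ((Fintype.card V : ℝ) / (Δ : ℝ)) ≤ (G.indepNum : ℝ) := by
  intro ζ hζ ε hε K hK
  obtain ⟨c, hc, N, hN⟩ := chain (ε * ζ / 2) (by positivity) ⌈K / ζ⌉₊
  refine ⟨⌈(N + 1 : ℝ) / ζ⌉₊ + ⌈4 / (ε * ζ ^ 2)⌉₊ + 1, ?_⟩
  intro Δ hΔ V _ _ G _ hn hD
  set n : ℝ := (Fintype.card V : ℝ) with hnd
  have hn0 : 0 ≤ n := Nat.cast_nonneg _
  have hΔ1 : (⌈(N + 1 : ℝ) / ζ⌉₊ : ℝ) + ⌈4 / (ε * ζ ^ 2)⌉₊ + 1 ≤ Δ := by exact_mod_cast hΔ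
  have hΔ2 := Nat.le_ceil ((N + 1 : ℝ) / ζ)
  have hΔ3 := Nat.le_ceil (4 / (ε * ζ ^ 2))
  have hΔ4 : (0 : ℝ) ≤ ⌈(N + 1 : ℝ) / ζ⌉₊ := Nat.cast_nonneg _
  have hΔ5 : (0 : ℝ) ≤ ⌈4 / (ε * ζ ^ 2)⌉₊ := Nat.cast_nonneg _
  have hΔ0 : (0 : ℝ) < Δ := by linarith
  have hΔN : (N + 1 : ℝ) / ζ ≤ Δ := by linarith
  have hΔε : 4 / (ε * ζ ^ 2) ≤ Δ := by linarith
  rw [div_le_iff₀ hζ] at hΔN
  rw [div_le_iff₀ (by positivity)] at hΔε
  have hfr : 0 ≤ n / Δ := div_nonneg hn0 hΔ0.le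
  have hup : (1 / ζ - ε) * (n / Δ) ≤ n / (ζ * Δ) := by
    have h1 : 1 / ζ * (n / Δ) = n / (ζ * Δ) := by field_simp
    nlinarith [mul_nonneg hε.le hfr]
  have hD' : ∀ u v : V, u ≠ v → ∑ w : V, ind (G.Adj u w ∧ G.Adj v w) ≤ ζ * (Δ : ℝ) := by
    intro u v huv
    rw [sum_ind]
    exact hD u v huv
  rcases lt_or_ge (Fintype.card V) N with hlt | hge
  · -- few vertices
    rcases Nat.eq_zero_or_pos (Fintype.card V) with h0 | h0
    · have : n = 0 := by rw [hnd, h0]; simp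
      rw [this]
      simp
    · have hne : Nonempty V := Fintype.card_pos_iff.1 h0
      obtain ⟨v⟩ := hne
      have h1 : G.IsIndepSet ((({v} : Finset V)) : Set V) := by
        intro a ha b hb hab
        simp only [Finset.coe_singleton, Set.mem_singleton_iff] at ha hb
        exact absurd (ha.trans hb.symm) hab
      have h2 := h1.card_le_indepNum
      rw [Finset.card_singleton] at h2
      have h3 : (1 : ℝ) ≤ (G.indepNum : ℝ) := by exact_mod_cast h2
      refine le_trans (le_trans hup ?_) h3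
      rw [div_le_one (by positivity)]
      have h4 : n ≤ N := by rw [hnd]; exact_mod_cast hlt.le
      linarith
  · rcases hN V G (ζ * Δ) hge hD' with h | ⟨r, hr, h⟩
    · rcases Nat.eq_zero_or_pos (Fintype.card V) with h0 | h0
      · have : n = 0 := by rw [hnd, h0]; simp
        rw [this]
        simp
      · have hnpos : 0 < n := by rw [hnd]; exact_mod_cast h0
        have h1 : 0 < qn G ⌈K / ζ⌉₊ := lt_of_lt_of_le (by positivity) h
        have h2 := le_indepNum G _ h1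
        have h3 : (⌈K / ζ⌉₊ : ℝ) ≤ (G.indepNum : ℝ) := by exact_mod_cast h2
        refine le_trans (le_trans hup ?_) (le_trans (Nat.le_ceil _) h3)
        rw [div_le_div_iff₀ (by positivity) hζ]
        nlinarith
    · have h2 := le_indepNum G _ hr
      have h3 : (r : ℝ) ≤ (G.indepNum : ℝ) := by exact_mod_cast h2
      refine le_trans ?_ h3
      have hpos : 0 < ζ * Δ + 2 := by positivity
      have h4 : (1 / ζ - ε) * (n / Δ) ≤ (1 - ε * ζ / 2) * n / (ζ * Δ + 2) := by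
        rw [le_div_iff₀ hpos]
        have h5 : (1 / ζ - ε) * (n / Δ) * (ζ * Δ + 2) =
            n * (1 - ε * ζ + 2 / (ζ * Δ) - 2 * ε / Δ) := by
          field_simp
          ring
        rw [h5]
        have h6 : 2 / (ζ * Δ) ≤ ε * ζ / 2 := by
          rw [div_le_iff₀ (by positivity)]
          nlinarith
        have h7 : 0 ≤ 2 * ε / Δ := by positivity
        nlinarith
      refine le_trans h4 ?_
      rw [div_le_iff₀ hpos]
      exact h

end Pool.Agent.Results.MP_c798af_co.LinearSize
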